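import Pool.Agent.Helper93.FZ.St

/-! Module LIM of project FZ. -/

set_option autoImplicit false

namespace Pool.Agent.Helper7.FZ

open Finset
open Pool.Agent.Helper93.FZ

private theorem pth_nonneg {n : ℕ} {A : Fin n → Fin n → ℝ} {t : ℝ} (h0 : 0 ≤ t) (h1 : t ≤ 1)
    (hA : ∀ i j, 0 ≤ A i j) (hA1 : ∀ i j, A i j ≤ 1) (i j : Fin n) : 0 ≤ pth A t i j := by
  have h2 : 0 ≤ 1 - A i j := by linarith [hA1 i j]
  have h3 : 1 - A i j ≤ 1 := by linarith [hA i j]
  have h4 : t * (1 - A i j) ≤ 1 := mul_le_one₀ h1 h2 h3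
  unfold pth
  linarith

private theorem pth_le_one {n : ℕ} {A : Fin n → Fin n → ℝ} {t : ℝ} (h0 : 0 ≤ t)
    (hA1 : ∀ i j, A i j ≤ 1) (i j : Fin n) : pth A t i j ≤ 1 := by
  have h2 : 0 ≤ 1 - A i j := by linarith [hA1 i j]
  have h4 : 0 ≤ t * (1 - A i j) := mul_nonneg h0 h2
  unfold pth
  linarith

private theorem pth_row {n : ℕ} (A : Fin n → Fin n → ℝ) (t a : ℝ) (i : Fin n)
    (h : ∑ j, A i j = n - a) : ∑ j, pth A t i j = n - t * a := by
  have h1 : ∑ j, pth A t i j = (n : ℝ) - t * ((n : ℝ) - ∑ j, A i j) := by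
    simp only [pth, Finset.sum_sub_distrib, ← Finset.mul_sum, Finset.sum_const,
      Finset.card_univ, Fintype.card_fin, nsmul_eq_mul, mul_one]
  rw [h1, h]
  ring

private theorem pth_col {n : ℕ} (A : Fin n → Fin n → ℝ) (t a : ℝ) (j : Fin n)
    (h : ∑ i, A i j = n - a) : ∑ i, pth A t i j = n - t * a := by
  have h1 : ∑ i, pth A t i j = (n : ℝ) - t * ((n : ℝ) - ∑ i, A i j) := by
    simp only [pth, Finset.sum_sub_distrib, ← Finset.mul_sum, Finset.sum_const,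
      Finset.card_univ, Fintype.card_fin, nsmul_eq_mul, mul_one]
  rw [h1, h]
  ring

private theorem Wt_pth {n : ℕ} {k : ℝ} {A B C : Fin n → Fin n → ℝ} {u v w : Fin n → ℝ}
    (h : Wt n k A B C u v w) {t : ℝ} (h0 : 0 ≤ t) (h1 : t ≤ 1) :
    Wt n (t * k) (pth A t) (pth B t) (pth C t) (fun i => t * u i) (fun i => t * v i)
      (fun i => t * w i) where
  A0 := pth_nonneg h0 h1 h.A0 h.A1
  B0 := pth_nonneg h0 h1 h.B0 h.B1
  C0 := pth_nonneg h0 h1 h.C0 h.C1
  A1 := pth_le_one h0 h.A1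
  B1 := pth_le_one h0 h.B1
  C1 := pth_le_one h0 h.C1
  rA := fun r => pth_row A t (u r) r (h.rA r)
  rC := fun r => pth_col C t (u r) r (h.rC r)
  cB := fun c => pth_row B t (v c) c (h.cB c)
  cA := fun c => pth_col A t (v c) c (h.cA c)
  sC := fun s => pth_row C t (w s) s (h.sC s)
  sB := fun s => pth_col B t (w s) s (h.sB s)
  uk := fun r => mul_le_mul_of_nonneg_left (h.uk r) h0
  vk := fun c => mul_le_mul_of_nonneg_left (h.vk c) h0
  wk := fun s => mul_le_mul_of_nonneg_left (h.wk s) h0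

private theorem k_nonneg {n : ℕ} {k : ℝ} {A B C : Fin n → Fin n → ℝ} {u v w : Fin n → ℝ}
    (h : Wt n k A B C u v w) (hn : 0 < n) : 0 ≤ k := by
  have r : Fin n := ⟨0, hn⟩
  have h1 : ∑ c, A r c ≤ ∑ _c : Fin n, (1 : ℝ) := Finset.sum_le_sum fun c _ => h.A1 r c
  simp only [Finset.sum_const, Finset.card_univ, Fintype.card_fin, nsmul_eq_mul, mul_one] at h1
  have h2 := h.rA r
  have h3 := h.uk r
  linarith

/-- Upper bound for the entries of `X`. -/
private theorem X_le {n : ℕ} {k : ℝ} {A B C X Y Z : Fin n → Fin n → ℝ} {u v w : Fin n → ℝ}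
    (h : Wt n k A B C u v w) (hS : Sol A B C X Y Z) (hk : 2 * k < n)
    (hX : ∀ i j, 0 ≤ X i j) (hY : ∀ i j, 0 ≤ Y i j) (hZ : ∀ i j, 0 ≤ Z i j) (r c : Fin n) :
    X r c ≤ 1 / (n - 2 * k) := by
  have h1 : X r c * ∑ s, B c s * C s r ≤ 1 := by
    rw [← hS.eA r c, Finset.mul_sum]
    refine Finset.sum_le_sum fun s _ => ?_
    have h2 : 0 ≤ B c s * C s r := mul_nonneg (h.B0 _ _) (h.C0 _ _)
    have h3 : 0 ≤ B c s * C s r * (Y c s + Z s r) :=
      mul_nonneg h2 (add_nonneg (hY _ _) (hZ _ _))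
    nlinarith [h3]
  have h4 : (n : ℝ) - 2 * k ≤ ∑ s, B c s * C s r := by
    have h5 : ∑ s, (B c s + C s r - 1) ≤ ∑ s, B c s * C s r := by
      refine Finset.sum_le_sum fun s _ => ?_
      have h6 : 0 ≤ (1 - B c s) * (1 - C s r) :=
        mul_nonneg (by linarith [h.B1 c s]) (by linarith [h.C1 s r])
      nlinarith [h6]
    have h7 : ∑ s, (B c s + C s r - 1) = (n : ℝ) - v c - u r := by
      rw [Finset.sum_sub_distrib, Finset.sum_add_distrib, h.cB c, h.rC r]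
      simp only [Finset.sum_const, Finset.card_univ, Fintype.card_fin, nsmul_eq_mul, mul_one]
      ring
    have h8 := h.vk c
    have h9 := h.uk r
    linarith
  have h10 : (0 : ℝ) < n - 2 * k := by linarith
  rw [le_div_iff₀ h10]
  exact le_trans (mul_le_mul_of_nonneg_left h4 (hX r c)) h1

/-- One member of the family. -/
private theorem family (hMIN : StMIN)
    (hPTH : ∀ (n : ℕ) (k : ℝ) (A B C : Fin n → Fin n → ℝ) (u v w : Fin n → ℝ), Wt n k A B C u v w →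
    0 < n → 4 * k < n → 0 < Psi n k (∑ r, u r) → ∀ t ∈ Set.Ico (0 : ℝ) 1,
    ∃ X Y Z : Fin n → Fin n → ℝ, Sol (pth A t) (pth B t) (pth C t) X Y Z ∧
      Bd (pth A t) (pth B t) (pth C t) X Y Z (1 / 2 - Psi n k (∑ r, u r) / (6 * (n : ℝ) ^ 4)))
    (n : ℕ) (k : ℝ) (A B C : Fin n → Fin n → ℝ) (u v w : Fin n → ℝ) (hW : Wt n k A B C u v w)
    (hn : 0 < n) (hk : 4 * k < n) (hP : 0 < Psi n k (∑ r, u r)) (t : ℝ)
    (ht : t ∈ Set.Ico (0 : ℝ) 1) :
    ∃ x : Fin n → Fin n → Fin n → ℝ,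
      (∀ r c s, Psi n k (∑ r, u r) / (n : ℝ) ^ 5 * (pth A t r c * pth B t c s * pth C t s r)
        ≤ x r c s) ∧
      (∀ r c s, x r c s ≤ 3 / (n - 2 * k) * (pth A t r c * pth B t c s * pth C t s r)) ∧
      (∀ r c, ∑ s, x r c s = pth A t r c) ∧ (∀ c s, ∑ r, x r c s = pth B t c s) ∧
      ∀ s r, ∑ c, x r c s = pth C t s r := by
  obtain ⟨X, Y, Z, hS, hB⟩ := hPTH n k A B C u v w hW hn hk hP t ht
  have hk0 : 0 ≤ k := k_nonneg hW hn
  have hn0 : (0 : ℝ) < n := by exact_mod_cast hn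
  have hWt := Wt_pth hW ht.1 ht.2.le
  have htk : t * k ≤ k := by nlinarith [ht.2.le]
  have hδ : 0 < Psi n k (∑ r, u r) / (6 * (n : ℝ) ^ 4) := by positivity
  obtain ⟨hX, hY, hZ⟩ := hMIN n (t * k) (1 / 2 - Psi n k (∑ r, u r) / (6 * (n : ℝ) ^ 4)) _ _ _
    X Y Z _ _ _ hWt hS (by linarith) (by linarith) hB
  have hm : (1 - 2 * (1 / 2 - Psi n k (∑ r, u r) / (6 * (n : ℝ) ^ 4))) / n
      = Psi n k (∑ r, u r) / (3 * (n : ℝ) ^ 5) := by
    field_simp
    ring
  rw [hm] at hX hY hZ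
  have hm0 : 0 < Psi n k (∑ r, u r) / (3 * (n : ℝ) ^ 5) := by positivity
  have hX0 : ∀ i j, 0 ≤ X i j := fun i j => hm0.le.trans (hX i j)
  have hY0 : ∀ i j, 0 ≤ Y i j := fun i j => hm0.le.trans (hY i j)
  have hZ0 : ∀ i j, 0 ≤ Z i j := fun i j => hm0.le.trans (hZ i j)
  have h2tk : 2 * (t * k) < n := by linarith
  have hpos : (0 : ℝ) < n - 2 * k := by linarith
  have hle : 1 / ((n : ℝ) - 2 * (t * k)) ≤ 1 / (n - 2 * k) :=
    one_div_le_one_div_of_le hpos (by linarith)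
  have hX1 : ∀ i j, X i j ≤ 1 / (n - 2 * k) := fun i j =>
    (X_le hWt hS h2tk hX0 hY0 hZ0 i j).trans hle
  have hY1 : ∀ i j, Y i j ≤ 1 / (n - 2 * k) := fun i j =>
    (X_le hWt.rot hS.rot h2tk hY0 hZ0 hX0 i j).trans hle
  have hZ1 : ∀ i j, Z i j ≤ 1 / (n - 2 * k) := fun i j =>
    (X_le hWt.rot.rot hS.rot.rot h2tk hZ0 hX0 hY0 i j).trans hle
  have hprod : ∀ r c s, 0 ≤ pth A t r c * pth B t c s * pth C t s r := fun r c s =>
    mul_nonneg (mul_nonneg (hWt.A0 _ _) (hWt.B0 _ _)) (hWt.C0 _ _)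
  refine ⟨fun r c s => pth A t r c * pth B t c s * pth C t s r * (X r c + Y c s + Z s r),
    ?_, ?_, ?_, ?_, ?_⟩
  · intro r c s
    have h1 : Psi n k (∑ r, u r) / (n : ℝ) ^ 5 = 3 * (Psi n k (∑ r, u r) / (3 * (n : ℝ) ^ 5)) := by
      field_simp
    rw [h1, mul_comm]
    refine mul_le_mul_of_nonneg_left ?_ (hprod r c s)
    linarith [hX r c, hY c s, hZ s r]
  · intro r c s
    have h1 : (3 : ℝ) / (n - 2 * k) = 3 * (1 / (n - 2 * k)) := by ring
    rw [h1, mul_comm (3 * _)]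
    refine mul_le_mul_of_nonneg_left ?_ (hprod r c s)
    linarith [hX1 r c, hY1 c s, hZ1 s r]
  · intro r c
    have h1 : ∀ s, pth A t r c * pth B t c s * pth C t s r * (X r c + Y c s + Z s r)
        = pth A t r c * (pth B t c s * pth C t s r * (X r c + Y c s + Z s r)) := fun s => by ring
    simp only [h1]
    rw [← Finset.mul_sum, hS.eA r c, mul_one]
  · intro c s
    have h1 : ∀ r, pth A t r c * pth B t c s * pth C t s r * (X r c + Y c s + Z s r)
        = pth B t c s * (pth C t s r * pth A t r c * (Y c s + Z s r + X r c)) := fun r => by ring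
    simp only [h1]
    rw [← Finset.mul_sum, hS.eB c s, mul_one]
  · intro s r
    have h1 : ∀ c, pth A t r c * pth B t c s * pth C t s r * (X r c + Y c s + Z s r)
        = pth C t s r * (pth A t r c * pth B t c s * (Z s r + X r c + Y c s)) := fun c => by ring
    simp only [h1]
    rw [← Finset.mul_sum, hS.eC s r, mul_one]

open Filter Topology in
theorem hLIM : StLIM := by
  intro hMIN hPTH n k A B C u v w hW hn hk hP
  have hk0 : 0 ≤ k := k_nonneg hW hn
  have hn0 : (0 : ℝ) < n := by exact_mod_cast hn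
  have hpos : (0 : ℝ) < n - 2 * k := by linarith
  -- the sequence of parameters
  set τ : ℕ → ℝ := fun j => 1 - 1 / ((j : ℝ) + 1) with hτ
  have hτm : ∀ j, τ j ∈ Set.Ico (0 : ℝ) 1 := by
    intro j
    have h1 : (0 : ℝ) < (j : ℝ) + 1 := by positivity
    have h2 : 0 < 1 / ((j : ℝ) + 1) := by positivity
    have h3 : 1 / ((j : ℝ) + 1) ≤ 1 := by
      rw [div_le_one h1]
      have : (0 : ℝ) ≤ j := by positivity
      linarith
    exact ⟨by simp only [hτ]; linarith, by simp only [hτ]; linarith⟩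
  have hτ1 : Tendsto τ atTop (𝓝 1) := by
    have h1 : Tendsto (fun j : ℕ => 1 / ((j : ℝ) + 1)) atTop (𝓝 0) :=
      tendsto_one_div_add_atTop_nhds_zero_nat
    have h2 := (tendsto_const_nhds (x := (1 : ℝ)) (f := (atTop : Filter ℕ))).sub h1
    rw [sub_zero] at h2
    exact h2
  choose x hx1 hx2 hx3 hx4 hx5 using fun j =>
    family hMIN hPTH n k A B C u v w hW hn hk hP (τ j) (hτm j)
  have hWt : ∀ j, Wt n (τ j * k) (pth A (τ j)) (pth B (τ j)) (pth C (τ j))
      (fun i => τ j * u i) (fun i => τ j * v i) (fun i => τ j * w i) :=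
    fun j => Wt_pth hW (hτm j).1 (hτm j).2.le
  -- the compact box
  have hbox : ∀ j, x j ∈ Set.Icc (fun _ _ _ => (0 : ℝ)) (fun _ _ _ => 3 / ((n : ℝ) - 2 * k)) := by
    intro j
    have hprod0 : ∀ r c s, 0 ≤ pth A (τ j) r c * pth B (τ j) c s * pth C (τ j) s r := fun r c s =>
      mul_nonneg (mul_nonneg ((hWt j).A0 _ _) ((hWt j).B0 _ _)) ((hWt j).C0 _ _)
    have hprod1 : ∀ r c s, pth A (τ j) r c * pth B (τ j) c s * pth C (τ j) s r ≤ 1 := fun r c s =>
      mul_le_one₀ (mul_le_one₀ ((hWt j).A1 _ _) ((hWt j).B0 _ _) ((hWt j).B1 _ _))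
        ((hWt j).C0 _ _) ((hWt j).C1 _ _)
    constructor
    · intro r c s
      refine le_trans ?_ (hx1 j r c s)
      exact mul_nonneg (by positivity) (hprod0 r c s)
    · intro r c s
      refine le_trans (hx2 j r c s) ?_
      have : 0 ≤ 3 / ((n : ℝ) - 2 * k) := by positivity
      exact mul_le_of_le_one_right this (hprod1 r c s)
  obtain ⟨y, -, φ, hφ, hy⟩ := (isCompact_Icc (a := (fun (_ : Fin n) (_ : Fin n) (_ : Fin n) =>
    (0 : ℝ))) (b := fun _ _ _ => 3 / ((n : ℝ) - 2 * k))).tendsto_subseq hbox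
  have hy' : ∀ r c s, Tendsto (fun j => x (φ j) r c s) atTop (𝓝 (y r c s)) := by
    intro r c s
    have h1 := (tendsto_pi_nhds.1 hy) r
    have h2 := (tendsto_pi_nhds.1 h1) c
    exact (tendsto_pi_nhds.1 h2) s
  have hτφ : Tendsto (fun j => τ (φ j)) atTop (𝓝 1) := hτ1.comp hφ.tendsto_atTop
  have hpth : ∀ (D : Fin n → Fin n → ℝ) (i j' : Fin n),
      Tendsto (fun j => pth D (τ (φ j)) i j') atTop (𝓝 (D i j')) := by
    intro D i j'
    have h1 : Tendsto (fun j => 1 - τ (φ j) * (1 - D i j')) atTop (𝓝 (1 - 1 * (1 - D i j'))) :=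
      tendsto_const_nhds.sub (hτφ.mul_const _)
    have h2 : (1 : ℝ) - 1 * (1 - D i j') = D i j' := by ring
    rw [h2] at h1
    exact h1
  have hpr : ∀ r c s, Tendsto (fun j => pth A (τ (φ j)) r c * pth B (τ (φ j)) c s *
      pth C (τ (φ j)) s r) atTop (𝓝 (A r c * B c s * C s r)) := fun r c s =>
    ((hpth A r c).mul (hpth B c s)).mul (hpth C s r)
  refine ⟨y, ?_, ?_, ?_, ?_, ?_⟩
  · intro r c s
    exact le_of_tendsto_of_tendsto' ((hpr r c s).const_mul _) (hy' r c s) fun j => hx1 (φ j) r c s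
  · intro r c s
    exact le_of_tendsto_of_tendsto' (hy' r c s) ((hpr r c s).const_mul _) fun j => hx2 (φ j) r c s
  · intro r c
    have h1 : Tendsto (fun j => ∑ s, x (φ j) r c s) atTop (𝓝 (∑ s, y r c s)) :=
      tendsto_finsetSum _ fun s _ => hy' r c s
    simp only [hx3] at h1
    exact tendsto_nhds_unique h1 (hpth A r c)
  · intro c s
    have h1 : Tendsto (fun j => ∑ r, x (φ j) r c s) atTop (𝓝 (∑ r, y r c s)) :=
      tendsto_finsetSum _ fun r _ => hy' r c s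
    simp only [hx4] at h1
    exact tendsto_nhds_unique h1 (hpth B c s)
  · intro s r
    have h1 : Tendsto (fun j => ∑ c, x (φ j) r c s) atTop (𝓝 (∑ c, y r c s)) :=
      tendsto_finsetSum _ fun c _ => hy' r c s
    simp only [hx5] at h1
    exact tendsto_nhds_unique h1 (hpth C s r)

end Pool.Agent.Helper7.FZ
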